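import Pool.Agent.H10.LDV.Stmts

/-!
# LDV, row RN3: the rounding lemma, layer by layer
-/

set_option autoImplicit false

namespace Pool.LDV

open Finset
open Pool.BL

/-- the sum over two consecutive values of `s` -/
lemma rn3_two (S k : ℕ) (h1 : 1 ≤ k) (h2 : k + 1 ≤ S) (a b : ℝ) (f : ℕ → ℝ) :
    ∑ s ∈ Icc 1 S, ((if s = k then a else 0) + (if s = k + 1 then b else 0)) * f s =
      a * f k + b * f (k + 1) := by
  have e1 : ∀ s ∈ Icc 1 S, ((if s = k then a else 0) + (if s = k + 1 then b else 0)) * f s =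
      (if s = k then a * f k else 0) + (if s = k + 1 then b * f (k + 1) else 0) := by
    intro s _
    rw [add_mul]
    congr 1
    · split_ifs with h
      · rw [h]
      · rw [zero_mul]
    · split_ifs with h
      · rw [h]
      · rw [zero_mul]
  rw [sum_congr rfl e1, sum_add_distrib, sum_ite_eq' (Icc 1 S) k, sum_ite_eq' (Icc 1 S) (k + 1),
    if_pos (mem_Icc.2 ⟨h1, by omega⟩), if_pos (mem_Icc.2 ⟨by omega, h2⟩)]

/-- the weights: `α / k` for the moment of order `k`, `β P` for the order `k + 1` -/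
lemma rn3_core (J S : ℕ) (p : ℕ → ℝ) (g g' α β : ℝ) (T : Finset ℕ) (k : ℕ → ℕ)
    (hT : T ⊆ Icc 1 J) (hg' : 0 < g') (hgg : g' ≤ g) (hα : 0 ≤ α) (hβ : 0 ≤ β)
    (hαβ : α + 2 * β ≤ 1) (hpT : ∀ t ∈ T, 0 < p t ∧ p t ≤ g')
    (hk : ∀ t ∈ T, 1 ≤ k t ∧ (k t : ℝ) * p t ≤ g' ∧ g' ≤ ((k t : ℝ) + 1) * p t ∧ k t + 1 ≤ S)
    (hb : (∑ t ∈ T, p t) * (2 * α + β) ≤ g') :
    VB J S p g ((∑ t ∈ T, p t) * (α + β)) := by
  set w : ℕ → ℕ → ℝ := fun e s => if e ∈ T then
    (if s = k e then α / k e else 0) + (if s = k e + 1 then β * (p e / g') else 0) else 0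
    with hw
  have hsum : ∀ e ∈ Icc 1 J, ∀ f : ℕ → ℝ, ∑ s ∈ Icc 1 S, w e s * f s =
      if e ∈ T then α / k e * f (k e) + β * (p e / g') * f (k e + 1) else 0 := by
    intro e _ f
    by_cases he : e ∈ T
    · rw [if_pos he, ← rn3_two S (k e) (hk e he).1 (hk e he).2.2.2]
      refine sum_congr rfl fun s _ => ?_
      rw [hw]
      simp only [if_pos he]
    · rw [if_neg he]
      refine sum_eq_zero fun s _ => ?_
      rw [hw]
      simp only [if_neg he, zero_mul]
  have hsumT : ∀ F : ℕ → ℝ, ∑ e ∈ Icc 1 J, (if e ∈ T then F e else 0) = ∑ e ∈ T, F e := by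
    intro F
    rw [← sum_filter]
    refine sum_congr ?_ fun _ _ => rfl
    ext e
    rw [mem_filter]
    exact ⟨fun h => h.2, fun h => ⟨hT h, h⟩⟩
  refine ⟨w, ?_, ?_, ?_, ?_⟩
  · intro e s
    rw [hw]
    beta_reduce
    by_cases he : e ∈ T
    · rw [if_pos he]
      have h1 : 0 ≤ α / k e := div_nonneg hα (Nat.cast_nonneg _)
      have h2 : 0 ≤ β * (p e / g') := mul_nonneg hβ (div_nonneg (hpT e he).1.le hg'.le)
      split_ifs <;> linarith
    · rw [if_neg he]
  · intro e he
    have e1 : ∑ s ∈ Icc 1 S, (s : ℝ) * w e s = ∑ s ∈ Icc 1 S, w e s * (s : ℝ) :=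
      sum_congr rfl fun s _ => mul_comm _ _
    rw [e1, hsum e he (fun s => (s : ℝ))]
    split_ifs with h
    · obtain ⟨k1, k2, k3, k4⟩ := hk e h
      obtain ⟨p1, p2⟩ := hpT e h
      have hk1 : (1 : ℝ) ≤ k e := by exact_mod_cast k1
      push_cast
      have e2 : α / (k e : ℝ) * k e = α := by
        field_simp
      have e3 : β * (p e / g') * ((k e : ℝ) + 1) ≤ β * 2 := by
        have h3 : p e / g' * ((k e : ℝ) + 1) ≤ 2 := by
          rw [div_mul_eq_mul_div, div_le_iff₀ hg']
          nlinarith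
        calc β * (p e / g') * ((k e : ℝ) + 1) = β * (p e / g' * ((k e : ℝ) + 1)) := by ring
          _ ≤ β * 2 := mul_le_mul_of_nonneg_left h3 hβ
      rw [e2]
      linarith
    · exact zero_le_one
  · have e1 : ∑ e ∈ Icc 1 J, ∑ s ∈ Icc 1 S, w e s =
        ∑ e ∈ Icc 1 J, if e ∈ T then α / k e + β * (p e / g') else 0 := by
      refine sum_congr rfl fun e he => ?_
      have := hsum e he (fun _ => 1)
      simpa using this
    rw [e1, hsumT]
    have h2 : ∑ t ∈ T, (α / k t + β * (p t / g')) ≤ ∑ t ∈ T, p t * (2 * α + β) / g' := by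
      refine sum_le_sum fun t ht => ?_
      obtain ⟨k1, k2, k3, k4⟩ := hk t ht
      have hk1 : (1 : ℝ) ≤ k t := by exact_mod_cast k1
      have h3 : (1 : ℝ) / k t ≤ 2 * (p t / g') := by
        rw [div_le_iff₀ (by linarith), mul_comm (2 : ℝ), mul_assoc, div_mul_eq_mul_div,
          le_div_iff₀ hg']
        have hp0 := (hpT t ht).1
        nlinarith
      calc α / k t + β * (p t / g') = α * (1 / k t) + β * (p t / g') := by ring
        _ ≤ α * (2 * (p t / g')) + β * (p t / g') := by
            have := mul_le_mul_of_nonneg_left h3 hα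
            linarith
        _ = p t * (2 * α + β) / g' := by ring
    refine h2.trans ?_
    rw [← sum_div, ← sum_mul, div_le_one hg']
    exact hb
  · have e1 : ∑ e ∈ Icc 1 J, ∑ s ∈ Icc 1 S, w e s * min ((s : ℝ) * p e) g =
        ∑ e ∈ Icc 1 J, if e ∈ T then α / k e * min ((k e : ℝ) * p e) g +
          β * (p e / g') * min (((k e : ℝ) + 1) * p e) g else 0 := by
      refine sum_congr rfl fun e he => ?_
      have := hsum e he (fun s => min ((s : ℝ) * p e) g)
      simpa using this
    rw [e1, hsumT, sum_mul]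
    refine sum_le_sum fun t ht => ?_
    obtain ⟨k1, k2, k3, k4⟩ := hk t ht
    have hk1 : (1 : ℝ) ≤ k t := by exact_mod_cast k1
    have hp0 := (hpT t ht).1
    have h3 : min ((k t : ℝ) * p t) g = (k t : ℝ) * p t := min_eq_left (k2.trans hgg)
    have h4 : g' ≤ min (((k t : ℝ) + 1) * p t) g := le_min k3 hgg
    rw [h3]
    have h5 : α / (k t : ℝ) * ((k t : ℝ) * p t) = α * p t := by
      field_simp
    have h6 : β * (p t / g') * g' ≤ β * (p t / g') * min (((k t : ℝ) + 1) * p t) g :=
      mul_le_mul_of_nonneg_left h4 (mul_nonneg hβ (div_nonneg hp0.le hg'.le))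
    have h7 : β * (p t / g') * g' = β * p t := by
      field_simp
    rw [h5]
    linarith

theorem rn3_thm : S_RN3 := by
  intro J η hη
  have hJ : (0 : ℝ) < (J : ℝ) + 1 := by positivity
  set η' : ℝ := η / (J + 1) with hη'
  have hη'0 : 0 < η' := div_pos hη hJ
  refine ⟨⌈4 * (J : ℝ) / η'⌉₊ + 1, fun p g hp hg => ?_⟩
  set S : ℕ := ⌈4 * (J : ℝ) / η'⌉₊ + 1 with hS
  set x := ∑ e ∈ Icc 1 J, p e with hx
  set T := (Icc 1 J).filter (fun e => η' ≤ p e) with hT
  set x' := ∑ e ∈ T, p e with hx'
  have hxx : x - η ≤ x' := by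
    have h1 := sum_filter_add_sum_filter_not (Icc 1 J) (fun e => η' ≤ p e) p
    have h2 : ∑ e ∈ (Icc 1 J).filter (fun e => ¬ η' ≤ p e), p e ≤ η := by
      calc _ ≤ ∑ e ∈ (Icc 1 J).filter (fun e => ¬ η' ≤ p e), η' :=
            sum_le_sum fun e he => by
              have := (mem_filter.1 he).2
              push Not at this
              exact this.le
        _ = (((Icc 1 J).filter (fun e => ¬ η' ≤ p e)).card : ℝ) * η' := by
            rw [sum_const, nsmul_eq_mul]
        _ ≤ ((J : ℝ) + 1) * η' := by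
            gcongr
            have h3 : ((Icc 1 J).filter (fun e => ¬ η' ≤ p e)).card ≤ J := by
              calc _ ≤ (Icc 1 J).card := card_filter_le _ _
                _ = J := by simp
            have h4 : (((Icc 1 J).filter (fun e => ¬ η' ≤ p e)).card : ℝ) ≤ J := by
              exact_mod_cast h3
            linarith
        _ = η := by rw [hη']; field_simp
    rw [← hT, ← hx', ← hx] at h1
    linarith
  have hx'x : x' ≤ x := sum_le_sum_of_subset_of_nonneg (filter_subset _ _)
    fun e _ _ => (hp e).1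
  set V : ℝ := min x (min ((x + g) / 3) g) with hV
  have hV1 : V ≤ x := min_le_left _ _
  have hV2 : V ≤ (x + g) / 3 := (min_le_right _ _).trans (min_le_left _ _)
  have hV3 : V ≤ g := (min_le_right _ _).trans (min_le_right _ _)
  -- larger values are enough
  have hmono : ∀ V' : ℝ, V - η ≤ V' → VB J S p g V' → VB J S p g (V - η) := by
    rintro V' h ⟨w, h1, h2, h3, h4⟩
    exact ⟨w, h1, h2, h3, h.trans h4⟩
  -- trivial cases
  have htriv : (V - η ≤ 0) → VB J S p g (V - η) := by
    intro h
    refine ⟨fun _ _ => 0, fun _ _ => le_rfl, fun _ _ => ?_, ?_, ?_⟩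
    · simp
    · simp
    · simpa using h
  rcases hg.eq_or_lt with hg0 | hg0
  · refine htriv ?_
    rw [← hg0] at hV3
    linarith
  rcases T.eq_empty_or_nonempty with hTe | hTe
  · refine htriv ?_
    have h1 : x' = 0 := by rw [hx', hTe, sum_empty]
    linarith
  have hpT : ∀ t ∈ T, 0 < p t := fun t ht => lt_of_lt_of_le hη'0 (mem_filter.1 ht).2
  have hx'0 : 0 < x' := sum_pos hpT hTe
  have hx'J : x' ≤ 2 * J := by
    calc x' ≤ ∑ e ∈ Icc 1 J, p e := hx'x
      _ ≤ ∑ _e ∈ Icc 1 J, (2 : ℝ) := sum_le_sum fun e _ => (hp e).2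
      _ = 2 * J := by rw [sum_const, nsmul_eq_mul]; simp; ring
  set g' := min g (2 * x') with hg'
  have hg'0 : 0 < g' := lt_min hg0 (by linarith)
  have hgg : g' ≤ g := min_le_left _ _
  have hgx : g' ≤ 2 * x' := min_le_right _ _
  have hTJ : T ⊆ Icc 1 J := filter_subset _ _
  by_cases hbig : ∃ e ∈ T, g' < p e
  · -- one large layer
    obtain ⟨e₀, he₀, hbig⟩ := hbig
    have hpx : p e₀ ≤ x' := single_le_sum (fun t ht => (hpT t ht).le) he₀
    have hg1 : g' = g := by
      rcases le_total g (2 * x') with h | h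
      · exact min_eq_left h
      · have : g' = 2 * x' := min_eq_right h
        linarith
    refine hmono g (by linarith) ?_
    refine ⟨fun e s => if e = e₀ ∧ s = 1 then 1 else 0, ?_, ?_, ?_, ?_⟩
    · intro e s
      beta_reduce
      split_ifs <;> norm_num
    · intro e _
      have h1 : ∀ s ∈ Icc 1 S, (s : ℝ) * (if e = e₀ ∧ s = 1 then (1 : ℝ) else 0) =
          if s = 1 then (if e = e₀ then (1 : ℝ) else 0) else 0 := by
        intro s _
        by_cases h : s = 1
        · subst h
          by_cases h' : e = e₀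
          · rw [if_pos ⟨h', rfl⟩, if_pos rfl, if_pos h']; norm_num
          · rw [if_neg (fun h => h' h.1), if_pos rfl, if_neg h']; norm_num
        · rw [if_neg (fun h' => h h'.2), if_neg h]; norm_num
      rw [sum_congr rfl h1, sum_ite_eq' (Icc 1 S) 1]
      split_ifs <;> norm_num
    · have h1 : ∀ e ∈ Icc 1 J, ∑ s ∈ Icc 1 S, (if e = e₀ ∧ s = 1 then (1 : ℝ) else 0) =
          if e = e₀ then 1 else 0 := by
        intro e _
        have h2 : ∀ s ∈ Icc 1 S, (if e = e₀ ∧ s = 1 then (1 : ℝ) else 0) =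
            if s = 1 then (if e = e₀ then (1 : ℝ) else 0) else 0 := by
          intro s _
          by_cases h : s = 1
          · by_cases h' : e = e₀
            · rw [if_pos ⟨h', h⟩, if_pos h, if_pos h']
            · rw [if_neg (fun h => h' h.1), if_pos h, if_neg h']
          · rw [if_neg (fun h' => h h'.2), if_neg h]
        rw [sum_congr rfl h2, sum_ite_eq' (Icc 1 S) 1, if_pos (mem_Icc.2 ⟨le_rfl, by omega⟩)]
      rw [sum_congr rfl h1, sum_ite_eq' (Icc 1 J) e₀, if_pos (hTJ he₀)]
    · have h1 : ∀ e ∈ Icc 1 J, ∑ s ∈ Icc 1 S,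
          (if e = e₀ ∧ s = 1 then (1 : ℝ) else 0) * min ((s : ℝ) * p e) g =
          if e = e₀ then min (p e₀) g else 0 := by
        intro e _
        have h2 : ∀ s ∈ Icc 1 S, (if e = e₀ ∧ s = 1 then (1 : ℝ) else 0) *
            min ((s : ℝ) * p e) g =
            if s = 1 then (if e = e₀ then min (p e₀) g else 0) else 0 := by
          intro s _
          by_cases h : s = 1
          · by_cases h' : e = e₀
            · rw [if_pos ⟨h', h⟩, if_pos h, if_pos h', h, h']
              push_cast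
              rw [one_mul, one_mul]
            · rw [if_neg (fun h => h' h.1), if_pos h, if_neg h', zero_mul]
          · rw [if_neg (fun h' => h h'.2), if_neg h, zero_mul]
        rw [sum_congr rfl h2, sum_ite_eq' (Icc 1 S) 1, if_pos (mem_Icc.2 ⟨le_rfl, by omega⟩)]
      rw [sum_congr rfl h1, sum_ite_eq' (Icc 1 J) e₀, if_pos (hTJ he₀), min_eq_right (by linarith)]
  · push Not at hbig
    have hk : ∀ t ∈ T, 1 ≤ ⌊g' / p t⌋₊ ∧ (⌊g' / p t⌋₊ : ℝ) * p t ≤ g' ∧
        g' ≤ ((⌊g' / p t⌋₊ : ℝ) + 1) * p t ∧ ⌊g' / p t⌋₊ + 1 ≤ S := by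
      intro t ht
      have hp0 := hpT t ht
      have hq0 : 0 ≤ g' / p t := div_nonneg hg'0.le hp0.le
      have h1 : (⌊g' / p t⌋₊ : ℝ) ≤ g' / p t := Nat.floor_le hq0
      have h2 : g' / p t < (⌊g' / p t⌋₊ : ℝ) + 1 := Nat.lt_floor_add_one _
      have h3 : (⌊g' / p t⌋₊ : ℝ) * p t ≤ g' := (le_div_iff₀ hp0).1 h1
      refine ⟨?_, h3, ?_, ?_⟩
      · rw [Nat.one_le_floor_iff, one_le_div hp0]
        exact hbig t ht
      · exact ((div_lt_iff₀ hp0).1 h2).le
      · have h4 : (⌊g' / p t⌋₊ : ℝ) ≤ 4 * J / η' := by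
          rw [le_div_iff₀ hη'0]
          calc (⌊g' / p t⌋₊ : ℝ) * η' ≤ (⌊g' / p t⌋₊ : ℝ) * p t := by
                gcongr
                exact (mem_filter.1 ht).2
            _ ≤ 4 * J := by linarith
        have h5 : ⌊g' / p t⌋₊ ≤ ⌈4 * (J : ℝ) / η'⌉₊ := by
          have := h4.trans (Nat.le_ceil _)
          exact_mod_cast this
        omega
    rcases le_or_gt x' (2 * g') with hcase | hcase
    · -- `x' ≤ 2 g'`: value `(x' + g') / 3`
      have hcore := rn3_core J S p g g' ((2 * g' - x') / (3 * x')) ((2 * x' - g') / (3 * x')) T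
        (fun t => ⌊g' / p t⌋₊) hTJ hg'0 hgg (div_nonneg (by linarith) (by linarith))
        (div_nonneg (by linarith) (by linarith))
        (by
          rw [← mul_div_assoc, ← add_div, div_le_one (by linarith)]
          linarith)
        (fun t ht => ⟨hpT t ht, hbig t ht⟩) hk
        (by
          rw [← hx', ← mul_div_assoc, ← add_div, ← mul_div_assoc, div_le_iff₀ (by linarith)]
          nlinarith)
      refine hmono _ ?_ hcore
      rw [← hx']
      have e1 : x' * ((2 * g' - x') / (3 * x') + (2 * x' - g') / (3 * x')) = (x' + g') / 3 := by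
        field_simp
        ring
      rw [e1]
      rcases le_total g (2 * x') with h | h
      · have : g' = g := min_eq_left h
        rw [this]
        linarith
      · have : g' = 2 * x' := min_eq_right h
        rw [this]
        linarith
    · -- `x' > 2 g'`: value `g'`
      have hcore := rn3_core J S p g g' 0 (g' / x') T
        (fun t => ⌊g' / p t⌋₊) hTJ hg'0 hgg le_rfl (div_nonneg hg'0.le hx'0.le)
        (by
          rw [zero_add, ← mul_div_assoc, div_le_one hx'0]
          exact hcase.le)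
        (fun t ht => ⟨hpT t ht, hbig t ht⟩) hk
        (by
          rw [← hx']
          have : x' * (2 * 0 + g' / x') = g' := by
            field_simp
            ring
          rw [this])
      refine hmono _ ?_ hcore
      rw [← hx']
      have e1 : x' * (0 + g' / x') = g' := by
        field_simp
        ring
      rw [e1]
      have hg1 : g' = g := by
        rcases le_total g (2 * x') with h | h
        · exact min_eq_left h
        · have : g' = 2 * x' := min_eq_right h
          linarith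
      rw [hg1]
      linarith

end Pool.LDV
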